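import Pool.Agent.E8helper95.NP.Stm

set_option autoImplicit false

namespace Pool.Agent.E8helper30.NP

open Pool.Agent.E8helper95.NP

theorem rep_succ (p m : ℕ) : rep p (m + 1) = rep p m + (p : ℤ) ^ m := by
  unfold rep; rw [Finset.sum_range_succ]

theorem rep_succ' (p m : ℕ) : rep p (m + 1) = 1 + (p : ℤ) * rep p m := by
  unfold rep; rw [Finset.sum_range_succ', Finset.mul_sum]
  simp only [pow_zero, pow_succ]
  rw [add_comm]
  congr 1
  refine Finset.sum_congr rfl fun i _ => by ring

theorem rep_nonneg (p m : ℕ) : 0 ≤ rep p m := by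
  unfold rep; exact Finset.sum_nonneg fun i _ => by positivity

theorem two_pow_le {a k : ℕ} (h : a ≤ k) : (2 : ℤ) ^ a ≤ 2 ^ k :=
  pow_le_pow_right₀ (by norm_num) h

theorem two_pow_ne {a b k : ℕ} (ha : a ≤ k) (hb : b ≤ k) (h : a ≠ b) :
    2 * ((2 : ℤ) ^ a + 2 ^ b) ≤ 3 * 2 ^ k ∧ 3 ≤ (2 : ℤ) ^ a + 2 ^ b := by
  rcases Nat.lt_or_gt_of_ne h with h | h
  · have h1 : (2 : ℤ) ^ (a + 1) ≤ 2 ^ b := two_pow_le h
    have h2 := two_pow_le hb
    have h3 : (1 : ℤ) ≤ 2 ^ a := one_le_pow₀ (by norm_num)
    rw [pow_succ] at h1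
    constructor <;> linarith
  · have h1 : (2 : ℤ) ^ (b + 1) ≤ 2 ^ a := two_pow_le h
    have h2 := two_pow_le ha
    have h3 : (1 : ℤ) ≤ 2 ^ b := one_le_pow₀ (by norm_num)
    rw [pow_succ] at h1
    constructor <;> linarith

theorem t_I1 : S_I1 := by
  intro k p m a₁ b₁ a₂ b₂ hs hne hb1 hb12 hb2m
  obtain ⟨hp, hp3, hm, ha₁, ha₂, -, -, heq⟩ := hs
  obtain ⟨n, rfl⟩ : ∃ n, m = n + 2 := ⟨m - 2, by omega⟩
  obtain ⟨c₁, rfl⟩ : ∃ c, b₁ = c + 1 := ⟨b₁ - 1, by omega⟩
  obtain ⟨c₂, rfl⟩ : ∃ c, b₂ = c + 1 := ⟨b₂ - 1, by omega⟩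
  set P : ℤ := (p : ℤ) with hP
  have hP3 : 3 ≤ P := by rw [hP]; exact_mod_cast hp3
  set K : ℤ := 2 ^ k with hK
  set x : ℤ := 2 ^ a₁ with hx
  set y : ℤ := 2 ^ a₂ with hy
  have hxK : x ≤ K := two_pow_le ha₁
  have hyK : y ≤ K := two_pow_le ha₂
  have hx1 : 1 ≤ x := one_le_pow₀ (by norm_num)
  have hy1 : 1 ≤ y := one_le_pow₀ (by norm_num)
  have hK1 : 1 ≤ K := le_trans hx1 hxK
  have hS1 : rep p (n + 2) = 1 + P * rep p (n + 1) := rep_succ' p (n + 1)
  have hR1 : rep p (n + 1) = 1 + P * rep p n := rep_succ' p n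
  have hS2 : rep p (n + 2) = rep p (n + 1) + P ^ (n + 1) := rep_succ p (n + 1)
  have hR2 : rep p (n + 1) = rep p n + P ^ n := rep_succ p n
  have hT0 : 0 ≤ rep p n := rep_nonneg p n
  set S := rep p (n + 2) with hS
  set R := rep p (n + 1) with hR
  set T := rep p n with hT
  set Q : ℤ := P ^ n with hQ
  have hQ1 : 1 ≤ Q := one_le_pow₀ (by linarith)
  have hPQ : P ^ (n + 1) = P * Q := by rw [pow_succ]; ring
  clear_value S R T Q x y K P
  rw [hPQ] at hS2
  have heq' : (2 * K - P) * S = 1 + x * (P ^ c₁ * P) + y * (P ^ c₂ * P) := by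
    rw [pow_succ, pow_succ, pow_succ, ← hK] at heq
    rw [mul_comm 2 K]; exact heq
  have hc1pos : 1 ≤ P ^ c₁ := one_le_pow₀ (by linarith)
  have hc2pos : 1 ≤ P ^ c₂ := one_le_pow₀ (by linarith)
  have hPmono : ∀ {i j : ℕ}, i ≤ j → P ^ i ≤ P ^ j := fun h => pow_le_pow_right₀ (by linarith) h
  have hPQ0 : 0 < P * Q := by positivity
  -- size
  have hsize : 2 * (x * (P ^ c₁ * P) + y * (P ^ c₂ * P)) ≤ 3 * K * (P * Q) := by
    rcases Nat.eq_or_lt_of_le hb12 with h | h
    · have hc : c₁ = c₂ := by omega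
      subst hc
      have hane : a₁ ≠ a₂ := by
        rcases hne with h1 | h1
        · exact h1
        · exact absurd rfl h1
      have h1 := (two_pow_ne ha₁ ha₂ hane).1
      rw [← hx, ← hy, ← hK] at h1
      have h2 : P ^ (c₁ + 1) ≤ P ^ (n + 1) := hPmono (by omega)
      rw [pow_succ, hPQ] at h2
      calc 2 * (x * (P ^ c₁ * P) + y * (P ^ c₁ * P)) = (2 * (x + y)) * (P ^ c₁ * P) := by ring
        _ ≤ (3 * K) * (P ^ c₁ * P) := by
            apply mul_le_mul_of_nonneg_right h1; positivity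
        _ ≤ 3 * K * (P * Q) := by
            apply mul_le_mul_of_nonneg_left h2; positivity
    · have h1 : P ^ (c₁ + 1) ≤ P ^ n := hPmono (by omega)
      have h2 : P ^ (c₂ + 1) ≤ P ^ (n + 1) := hPmono (by omega)
      rw [pow_succ] at h1 h2
      rw [← hQ] at h1
      rw [hPQ] at h2
      have h3 : x * (P ^ c₁ * P) ≤ K * Q := mul_le_mul hxK h1 (by positivity) (by linarith)
      have h4 : y * (P ^ c₂ * P) ≤ K * (P * Q) := mul_le_mul hyK h2 (by positivity) (by linarith)
      have h5 : K * (2 * Q) ≤ K * (P * Q) := by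
        apply mul_le_mul_of_nonneg_left _ (by linarith)
        exact mul_le_mul_of_nonneg_right (by linarith) (by linarith)
      linarith
  have hSpos : 0 < S := by rw [hS2, hR2]; positivity
  have hSge : P * Q + Q ≤ S := by rw [hS2, hR2]; linarith
  have hMP : 0 < 2 * K - P := by
    by_contra hcon
    push Not at hcon
    have h1 : (2 * K - P) * S ≤ 0 := mul_nonpos_of_nonpos_of_nonneg hcon hSpos.le
    have h2 : 0 < x * (P ^ c₁ * P) := by positivity
    have h3 : 0 < y * (P ^ c₂ * P) := by positivity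
    linarith
  have hK2P : K < 2 * P := by
    by_contra hcon
    push Not at hcon
    have h1 : (2 * K - P) * (P * Q + Q) ≤ (2 * K - P) * S := mul_le_mul_of_nonneg_left hSge hMP.le
    have h2 : 2 * ((2 * K - P) * (P * Q + Q)) ≤ 2 + 3 * K * (P * Q) := by linarith
    have h3 : (K * P + 4 * K - 2 * P ^ 2 - 2 * P) * Q ≤ 2 := by
      have h5 : (K * P + 4 * K - 2 * P ^ 2 - 2 * P) * Q =
        2 * ((2 * K - P) * (P * Q + Q)) - 3 * K * (P * Q) := by ring
      linarith
    have h4 : 18 ≤ K * P + 4 * K - 2 * P ^ 2 - 2 * P := by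
      have h6 : 0 ≤ (K - 2 * P) * (P + 4) := mul_nonneg (by linarith) (by linarith)
      have h7 : (K - 2 * P) * (P + 4) = K * P + 4 * K - 2 * P ^ 2 - 8 * P := by ring
      linarith
    have h8 : 18 * 1 ≤ (K * P + 4 * K - 2 * P ^ 2 - 2 * P) * Q :=
      mul_le_mul h4 hQ1 (by norm_num) (by linarith)
    linarith
  -- mod p
  obtain ⟨t, ht⟩ : ∃ t, 2 * K - 1 = P * t := by
    refine ⟨1 + P * R + x * P ^ c₁ + y * P ^ c₂ - 2 * K * R, ?_⟩
    rw [hS1] at heq'
    linear_combination heq'
  have ht1 : 1 ≤ t := by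
    by_contra hcon
    push Not at hcon
    have : P * t ≤ 0 := mul_nonpos_of_nonneg_of_nonpos (by linarith) (by linarith)
    linarith
  have ht3 : t ≤ 3 := by
    by_contra hcon
    push Not at hcon
    have : P * 4 ≤ P * t := mul_le_mul_of_nonneg_left (by linarith) (by linarith)
    linarith
  have hPdvd : ∀ {c : ℕ}, 1 ≤ c → P ∣ P ^ c := fun h => dvd_pow_self P (by omega)
  have hndvd : ∀ z : ℤ, 1 ≤ z → z < P → ¬ P ∣ z := by
    intro z hz1 hz2 hdv
    exact absurd (Int.le_of_dvd (by linarith) hdv) (by linarith)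
  have htc : t = 1 ∨ t = 2 ∨ t = 3 := by omega
  rcases htc with rfl | rfl | rfl
  · -- case A
    have hKP : 2 * K = P + 1 := by linarith
    have hRe : R = x * P ^ c₁ + y * P ^ c₂ := by
      have h1 : (2 * K - P) * S = S := by rw [hKP]; ring
      rw [h1, hS1] at heq'
      have h2 : P * R = P * (x * P ^ c₁ + y * P ^ c₂) := by linear_combination heq'
      exact mul_left_cancel₀ (by linarith) h2
    have hc10 : c₁ = 0 := by
      by_contra hcon
      have h1 : P ∣ P ^ c₁ := hPdvd (by omega)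
      have h2 : P ∣ P ^ c₂ := hPdvd (by omega)
      have h3 : P ∣ R := by rw [hRe]; exact dvd_add (h1.mul_left _) (h2.mul_left _)
      rw [hR1] at h3
      exact hndvd 1 le_rfl (by linarith) ((dvd_add_left (Dvd.intro _ rfl)).1 h3)
    subst hc10
    rw [pow_zero, mul_one] at hRe
    rcases Nat.eq_zero_or_pos c₂ with hc2 | hc2
    · subst hc2
      rw [pow_zero, mul_one] at hRe
      have hane : a₁ ≠ a₂ := by
        rcases hne with h1 | h1
        · exact h1
        · exact absurd rfl h1
      obtain ⟨h1, h2⟩ := two_pow_ne ha₁ ha₂ hane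
      rw [← hx, ← hy] at h1 h2
      rw [← hK] at h1
      rcases Nat.eq_zero_or_pos n with hn | hn
      · exfalso
        have hQ' : Q = 1 := by rw [hQ, hn, pow_zero]
        have hT' : T = 0 := by rw [hT, hn]; simp [rep]
        rw [hR1, hT'] at hRe
        have : (1 : ℤ) = x + y := by linarith
        have h2' : 3 ≤ x + y := h2
        linarith
      · exfalso
        have hT' : 1 ≤ T := by
          obtain ⟨n', rfl⟩ : ∃ n', n = n' + 1 := ⟨n - 1, by omega⟩
          have := rep_succ' p n'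
          have h0 := rep_nonneg p n'
          rw [hT, this]
          have : 0 ≤ (p : ℤ) * rep p n' := by positivity
          linarith
        have h3 : P * 1 ≤ P * T := mul_le_mul_of_nonneg_left hT' (by linarith)
        have h1' : 2 * (x + y) ≤ 3 * K := h1
        linarith
    · have hxP : P ∣ x - 1 := by
        have h2 : P ∣ P ^ c₂ := hPdvd hc2
        have h3 : x - 1 = P * T - y * P ^ c₂ := by linarith
        rw [h3]
        exact dvd_sub (Dvd.intro _ rfl) (h2.mul_left _)
      have hx1' : x = 1 := by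
        by_contra hcon
        exact hndvd (x - 1) (by omega) (by linarith) hxP
      have hTe : T = y * P ^ (c₂ - 1) := by
        have h1 : P ^ c₂ = P * P ^ (c₂ - 1) := by
          rw [← pow_succ']; congr 1; omega
        rw [h1, hx1', hR1] at hRe
        have h2 : P * T = P * (y * P ^ (c₂ - 1)) := by linear_combination hRe
        exact mul_left_cancel₀ (by linarith) h2
      -- n ≥ 1
      have hn1 : 1 ≤ n := by omega
      obtain ⟨n', rfl⟩ : ∃ n', n = n' + 1 := ⟨n - 1, by omega⟩
      have hT1 : T = 1 + P * rep p n' := by rw [hT, hP]; exact rep_succ' p n'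
      have hc21 : c₂ = 1 := by
        by_contra hcon
        have h1 : P ∣ P ^ (c₂ - 1) := hPdvd (by omega)
        have h2 : P ∣ T := by rw [hTe]; exact h1.mul_left _
        rw [hT1] at h2
        exact hndvd 1 le_rfl (by linarith) ((dvd_add_left (Dvd.intro _ rfl)).1 h2)
      subst hc21
      have hn' : n' = 0 := by
        by_contra hcon
        obtain ⟨n'', rfl⟩ : ∃ n'', n' = n'' + 1 := ⟨n' - 1, by omega⟩
        have h1 := rep_succ' p n''
        have h0 := rep_nonneg p n''
        have h2 : 1 ≤ rep p (n'' + 1) := by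
          rw [h1]
          have : 0 ≤ (p : ℤ) * rep p n'' := by positivity
          linarith
        have h3 : P * 1 ≤ P * rep p (n'' + 1) := mul_le_mul_of_nonneg_left h2 (by linarith)
        simp at hTe
        linarith
      subst hn'
      refine ⟨rfl, ?_⟩
      have h1 : ((p + 1 : ℕ) : ℤ) = ((2 ^ (k + 1) : ℕ) : ℤ) := by
        push_cast
        rw [pow_succ]
        linarith
      exact_mod_cast h1
  · -- t = 2
    exfalso
    omega
  · -- case B
    exfalso
    have hKP : 2 * K = 3 * P + 1 := by linarith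
    have hRe : 2 * S + R = x * P ^ c₁ + y * P ^ c₂ := by
      have h2 : P * (2 * S + R) = P * (x * P ^ c₁ + y * P ^ c₂) := by
        linear_combination heq' - S * hKP - hS1
      exact mul_left_cancel₀ (by linarith) h2
    have hc10 : c₁ = 0 := by
      by_contra hcon
      have h1 : P ∣ P ^ c₁ := hPdvd (by omega)
      have h2 : P ∣ P ^ c₂ := hPdvd (by omega)
      have h3 : P ∣ 2 * S + R := by rw [hRe]; exact dvd_add (h1.mul_left _) (h2.mul_left _)
      have h4 : 2 * S + R = 3 + P * (2 * R + T) := by rw [hS1]; linear_combination hR1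
      rw [h4] at h3
      have h5 : P ∣ 3 := (dvd_add_left (Dvd.intro _ rfl)).1 h3
      have h6 : P ≤ 3 := Int.le_of_dvd (by norm_num) h5
      have h7 : P = 3 := le_antisymm h6 hP3
      rw [h7] at hKP
      have hK5 : K = 5 := by linarith
      have hk : k = 0 ∨ k = 1 ∨ k = 2 ∨ 3 ≤ k := by omega
      rcases hk with rfl | rfl | rfl | hk
      · norm_num [hK] at hK5
      · norm_num [hK] at hK5
      · norm_num [hK] at hK5
      · have : (2 : ℤ) ^ 3 ≤ 2 ^ k := two_pow_le hk
        have h8 : (8 : ℤ) ≤ K := by linarith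
        linarith
    subst hc10
    rw [pow_zero, mul_one] at hRe
    rcases Nat.eq_zero_or_pos n with hn | hn
    · have hc2 : c₂ = 0 := by omega
      subst hc2
      rw [pow_zero, mul_one] at hRe
      have hane : a₁ ≠ a₂ := by
        rcases hne with h1 | h1
        · exact h1
        · exact absurd rfl h1
      have hT' : T = 0 := by rw [hT, hn]; simp [rep]
      have hR' : R = 1 := by rw [hR1, hT']; ring
      have hS' : S = 1 + P := by rw [hS1, hR']; ring
      rw [hR', hS'] at hRe
      -- 2 P + 3 = x + y, parity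
      rcases Nat.eq_zero_or_pos a₁ with h1 | h1
      · have hx' : x = 1 := by rw [hx, h1, pow_zero]
        linarith
      · rcases Nat.eq_zero_or_pos a₂ with h2 | h2
        · have hy' : y = 1 := by rw [hy, h2, pow_zero]
          linarith
        · have hxe : (2 : ℤ) ∣ x := by rw [hx]; exact dvd_pow_self 2 (by omega)
          have hye : (2 : ℤ) ∣ y := by rw [hy]; exact dvd_pow_self 2 (by omega)
          omega
    · have h1 : P ^ c₂ ≤ Q := by rw [hQ]; exact hPmono (by omega)
      have h2 : y * P ^ c₂ ≤ K * Q := mul_le_mul hyK h1 (by positivity) (by linarith)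
      have hT' : 1 ≤ T := by
        obtain ⟨n', rfl⟩ : ∃ n', n = n' + 1 := ⟨n - 1, by omega⟩
        have := rep_succ' p n'
        have h0 := rep_nonneg p n'
        rw [hT, this]
        have : 0 ≤ (p : ℤ) * rep p n' := by positivity
        linarith
      have hQP : P ≤ Q := by
        have := hPmono (i := 1) (j := n) hn
        rwa [pow_one, ← hQ] at this
      have hPQP : P * P ≤ P * Q := mul_le_mul_of_nonneg_left hQP (by linarith)
      have h3 : 2 * (K * Q) = (3 * P + 1) * Q := by rw [← hKP]; ring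
      have h4 : S = T + Q + P * Q := by rw [hS2, hR2]
      have h5 : (3 * P + 1) * Q = 3 * (P * Q) + Q := by ring
      rw [h5] at h3
      linarith

end Pool.Agent.E8helper30.NP

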